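import Pool.Agent.T9h78.Sing.Spec

/-!
# Counting semi-orthogonal tuples by characters (piece (C) of MP_f86ddb_al)
-/

set_option autoImplicit false

namespace Pool.Agent.T9h84.Sing

open Finset Pool.Agent.T9h78.Sing

theorem char_sum {A ι : Type*} [AddCommMonoid A] (ψ : AddChar A ℂ) (s : Finset ι) (f : ι → A) :
    ψ (∑ x ∈ s, f x) = ∏ x ∈ s, ψ (f x) := by
  classical
  induction s using Finset.induction_on with
  | empty => simp
  | insert a s ha ih =>
    rw [Finset.sum_insert ha, Finset.prod_insert ha, AddChar.map_add_eq_mul, ih]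

theorem sum_psi {F : Type*} [Field F] [Fintype F] [DecidableEq F] {ψ : AddChar F ℂ} (hψ : ψ ≠ 1)
    (x : F) : ∑ s : F, ψ (s * x) = if x = 0 then (Fintype.card F : ℂ) else 0 := by
  have h := AddChar.sum_mulShift (ψ := ψ) x (AddChar.IsPrimitive.of_ne_one hψ)
  simpa using h

theorem fw_zero {F : Type*} [Field F] [Fintype F] : fw (0 : F) = (Fintype.card F : ℂ) - 1 := by
  unfold fw
  rw [if_pos rfl]

theorem fw_ne {F : Type*} [Field F] [Fintype F] {s : F} (hs : s ≠ 0) : fw s = -1 := by
  unfold fw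
  rw [if_neg hs]

theorem fw_eq {F : Type*} [Field F] [Fintype F] [DecidableEq F] (s : F) :
    fw s = (if s = 0 then (Fintype.card F : ℂ) else 0) - 1 := by
  by_cases hs : s = 0
  · rw [hs, fw_zero, if_pos rfl]
  · rw [fw_ne hs, if_neg hs, zero_sub]

theorem sum_fpsi {F : Type*} [Field F] [Fintype F] [DecidableEq F] {ψ : AddChar F ℂ} (hψ : ψ ≠ 1)
    (x : F) : ∑ s : F, fw s * ψ (s * x) = if x = 0 then 0 else (Fintype.card F : ℂ) := by
  simp only [fw_eq, sub_mul, one_mul, Finset.sum_sub_distrib, ite_mul, zero_mul]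
  rw [sum_psi hψ, Finset.sum_ite_eq' univ (0 : F) (fun s => (Fintype.card F : ℂ) * ψ (s * x)),
    if_pos (Finset.mem_univ _), zero_mul, AddChar.map_zero_eq_one, mul_one]
  split_ifs <;> simp

theorem tri_sum (i : ℕ) : ∑ a : Fin i, (i - (a : ℕ)) = i * (i + 1) / 2 := by
  rw [Fin.sum_univ_eq_sum_range (fun k => i - k) i]
  have h : ∀ i : ℕ, (∑ k ∈ range i, (i - k)) * 2 = i * (i + 1) := by
    intro i
    induction i with
    | zero => simp
    | succ i ih =>
      rw [Finset.sum_range_succ']
      simp only [Nat.add_sub_add_right, Nat.sub_zero]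
      rw [add_mul, ih]
      ring
  rw [← h i, Nat.mul_div_cancel _ (by norm_num)]

theorem prod_tri (i : ℕ) (q : ℂ) :
    ∏ a : Fin i, ∏ b : Fin i, (if b < a then 1 else q) = q ^ (i * (i + 1) / 2) := by
  have h : ∀ a : Fin i, ∏ b : Fin i, (if b < a then 1 else q) = q ^ (i - (a : ℕ)) := by
    intro a
    rw [Finset.prod_ite, Finset.prod_const_one, one_mul, Finset.prod_const]
    congr 1
    rw [← Fin.card_Ici]
    congr 1
    ext b
    simp
  rw [Finset.prod_congr rfl (fun a _ => h a), Finset.prod_pow_eq_pow_sum, tri_sum]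

theorem prod_sum_mat {i : ℕ} {F : Type*} [Fintype F] (g : Fin i → Fin i → F → ℂ) :
    ∑ S : Fin i → Fin i → F, ∏ a, ∏ b, g a b (S a b) = ∏ a, ∏ b, ∑ s, g a b s := by
  classical
  have h1 : ∀ a, ∏ b, ∑ s, g a b s = ∑ r : Fin i → F, ∏ b, g a b (r b) := by
    intro a
    rw [Finset.prod_univ_sum, Fintype.piFinset_univ]
  rw [Finset.prod_congr rfl (fun a _ => h1 a), Finset.prod_univ_sum, Fintype.piFinset_univ]

open scoped Classical in
theorem one_tuple {F : Type*} [Field F] [Fintype F] {ψ : AddChar F ℂ} (hψ : ψ ≠ 1) {i : ℕ}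
    (x : Fin i → Fin i → F) :
    (∑ S : Matrix (Fin i) (Fin i) F, if UT S then wt S * ψ (∑ a, ∑ b, S a b * x a b) else 0) =
      if (∀ a b, a < b → x a b = 0) ∧ (∀ a, x a a ≠ 0) then
        (Fintype.card F : ℂ) ^ (i * (i + 1) / 2) else 0 := by
  obtain ⟨g, hg⟩ : ∃ g : Fin i → Fin i → F → ℂ, g = fun a b s => if b < a then
    (if s = 0 then 1 else 0) else if a = b then fw s * ψ (s * x a b) else ψ (s * x a b) :=
    ⟨_, rfl⟩
  have h1 : ∀ S : Fin i → Fin i → F,
      (if UT (S : Matrix (Fin i) (Fin i) F) then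
        wt (S : Matrix (Fin i) (Fin i) F) * ψ (∑ a, ∑ b, S a b * x a b) else 0) =
        ∏ a, ∏ b, g a b (S a b) := by
    intro S
    by_cases hS : UT (S : Matrix (Fin i) (Fin i) F)
    · rw [if_pos hS]
      have h2 : ψ (∑ a, ∑ b, S a b * x a b) = ∏ a, ∏ b, ψ (S a b * x a b) := by
        rw [char_sum]
        refine Finset.prod_congr rfl fun a _ => ?_
        rw [char_sum]
      have h3 : wt (S : Matrix (Fin i) (Fin i) F) = ∏ a : Fin i, ∏ b : Fin i,
          (if a = b then fw (S a b) else 1) := by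
        unfold wt
        refine Finset.prod_congr rfl fun a _ => ?_
        rw [Finset.prod_ite_eq univ a (fun b => fw (S a b)), if_pos (Finset.mem_univ _)]
      rw [h2, h3, ← Finset.prod_mul_distrib]
      refine Finset.prod_congr rfl fun a _ => ?_
      rw [← Finset.prod_mul_distrib]
      refine Finset.prod_congr rfl fun b _ => ?_
      rw [hg]
      by_cases hab : b < a
      · have h0 : S a b = 0 := hS a b hab
        simp [hab, h0, hab.ne']
      · by_cases hab' : a = b
        · simp [hab']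
        · simp [hab, hab']
    · rw [if_neg hS]
      unfold UT at hS
      push Not at hS
      obtain ⟨a, b, hab, hne⟩ := hS
      symm
      apply Finset.prod_eq_zero (Finset.mem_univ a)
      apply Finset.prod_eq_zero (Finset.mem_univ b)
      rw [hg]
      simp only [hab, if_true]
      rw [if_neg hne]
  have h2 : (∑ S : Matrix (Fin i) (Fin i) F,
      if UT S then wt S * ψ (∑ a, ∑ b, S a b * x a b) else 0) =
      ∑ S : Fin i → Fin i → F, ∏ a, ∏ b, g a b (S a b) :=
    Finset.sum_congr rfl fun S _ => h1 S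
  rw [h2, prod_sum_mat]
  have h3 : ∀ a b, ∑ s, g a b s = (if b < a then (1 : ℂ) else Fintype.card F) *
      (if (a < b → x a b = 0) ∧ (a = b → x a b ≠ 0) then 1 else 0) := by
    intro a b
    rw [hg]
    rcases lt_trichotomy a b with hab | hab | hab
    · have h4 : ¬ b < a := not_lt.2 hab.le
      simp only [h4, if_false, hab.ne, hab, false_imp_iff, and_true, true_imp_iff]
      rw [sum_psi hψ]
      split_ifs <;> simp
    · subst hab
      simp only [lt_irrefl, if_false, if_true, false_imp_iff, true_and, true_imp_iff]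
      rw [sum_fpsi hψ]
      by_cases hx : x a a = 0 <;> simp [hx]
    · have h4 : ¬ a < b := not_lt.2 hab.le
      simp [hab, h4, hab.ne']
  rw [Finset.prod_congr rfl (fun a _ => Finset.prod_congr rfl (fun b _ => h3 a b))]
  simp only [Finset.prod_mul_distrib]
  rw [prod_tri]
  by_cases hx : (∀ a b, a < b → x a b = 0) ∧ (∀ a, x a a ≠ 0)
  · rw [if_pos hx]
    have h4 : ∀ a b, (if (a < b → x a b = 0) ∧ (a = b → x a b ≠ 0) then (1 : ℂ) else 0) = 1 := by
      intro a b
      rw [if_pos]
      refine ⟨hx.1 a b, ?_⟩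
      rintro rfl
      exact hx.2 a
    simp only [h4, Finset.prod_const_one, mul_one]
  · rw [if_neg hx]
    have h4 : ∃ a b, ¬ ((a < b → x a b = 0) ∧ (a = b → x a b ≠ 0)) := by
      by_contra h5
      push Not at h5
      apply hx
      refine ⟨fun a b => (h5 a b).1, fun a => (h5 a a).2 rfl⟩
    obtain ⟨a, b, hab⟩ := h4
    have h5 : ∏ a, ∏ b, (if (a < b → x a b = 0) ∧ (a = b → x a b ≠ 0) then (1 : ℂ) else 0) = 0 := by
      apply Finset.prod_eq_zero (Finset.mem_univ a)
      apply Finset.prod_eq_zero (Finset.mem_univ b)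
      rw [if_neg hab]
    rw [h5, mul_zero]

theorem stCount : StCount := by
  classical
  intro F W _ _ _ X ψ hψ i
  have h1 : (∑ S : Matrix (Fin i) (Fin i) F, if UT S then
      wt S * ∑ w : Fin i → W, ψ (∑ a, ∑ b, S a b * X (w a) (w b)) else 0) =
      ∑ w : Fin i → W, ∑ S : Matrix (Fin i) (Fin i) F,
        if UT S then wt S * ψ (∑ a, ∑ b, S a b * X (w a) (w b)) else 0 := by
    rw [Finset.sum_comm]
    refine Finset.sum_congr rfl fun S _ => ?_
    split_ifs
    · rw [Finset.mul_sum]
    · rw [Finset.sum_const_zero]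
  have h2 : (Nat.card {w : Fin i → W // Good X w} : ℂ) =
      ∑ w : Fin i → W, if Good X w then 1 else 0 := by
    rw [Nat.card_eq_fintype_card, Fintype.card_subtype, Finset.sum_boole]
  rw [h2, Finset.sum_mul]
  convert (Finset.sum_congr rfl fun w _ => ?_).trans h1.symm using 1
  rw [one_tuple hψ (fun a b => X (w a) (w b))]
  unfold Good
  split_ifs <;> simp

end Pool.Agent.T9h84.Sing
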