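import Pool.Agent.T9h78.Sing.Spec

/-!
# Gauss sums of Hermitian forms over a finite field (piece (G) of MP_f86ddb_al)
-/

set_option autoImplicit false
set_option linter.unusedSectionVars false

namespace Pool.Agent.T9h84.Sing

open Finset Pool.Agent.T9h78.Sing

section basic
variable {L : Type*} [Field L] [Fintype L] [DecidableEq L] {σ : L →+* L} {Q : ℕ}

theorem one_lt_Q (hQ : Fintype.card L = Q * Q) : 1 < Q := by
  have h := Fintype.one_lt_card (α := L)
  rw [hQ] at h
  by_contra h1
  push Not at h1
  interval_cases Q <;> omega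

theorem invol (hσ : ∀ x, σ x = x ^ Q) (hQ : Fintype.card L = Q * Q) (x : L) : σ (σ x) = x := by
  rw [hσ, hσ, ← pow_mul, ← hQ, FiniteField.pow_card]

theorem card_lin (hQ1 : 1 < Q) (a : L) :
    (univ.filter fun x : L => x ^ Q = a * x).card ≤ Q := by
  have hd : (Polynomial.X ^ Q - Polynomial.C a * Polynomial.X : Polynomial L).natDegree = Q := by
    rw [Polynomial.natDegree_sub_eq_left_of_natDegree_lt]
    · exact Polynomial.natDegree_X_pow Q
    · rw [Polynomial.natDegree_X_pow]
      exact lt_of_le_of_lt ((Polynomial.natDegree_C_mul_le a Polynomial.X).trans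
        Polynomial.natDegree_X_le) hQ1
  have h0 : (Polynomial.X ^ Q - Polynomial.C a * Polynomial.X : Polynomial L) ≠ 0 := by
    intro h
    rw [h, Polynomial.natDegree_zero] at hd
    omega
  calc _ ≤ (Polynomial.X ^ Q - Polynomial.C a * Polynomial.X :
        Polynomial L).roots.toFinset.card := by
        apply Finset.card_le_card
        intro x hx
        rw [Multiset.mem_toFinset, Polynomial.mem_roots h0, Polynomial.IsRoot.def]
        have hx' := (Finset.mem_filter.1 hx).2
        simp [hx']
    _ ≤ _ := (Multiset.toFinset_card_le _).trans ((Polynomial.card_roots' _).trans hd.le)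

theorem card_fix_le (hσ : ∀ x, σ x = x ^ Q) (hQ1 : 1 < Q) :
    (univ.filter fun x : L => σ x = x).card ≤ Q := by
  have h := card_lin hQ1 (1 : L)
  simpa [hσ] using h

theorem card_anti_le (hσ : ∀ x, σ x = x ^ Q) (hQ1 : 1 < Q) :
    (univ.filter fun x : L => σ x = -x).card ≤ Q := by
  have h := card_lin hQ1 (-1 : L)
  simpa [hσ] using h

theorem card_mul (hσ : ∀ x, σ x = x ^ Q) (hQ : Fintype.card L = Q * Q) :
    Q * Q ≤ (univ.filter fun x : L => σ x = -x).card * (univ.filter fun x : L => σ x = x).card := by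
  rw [← hQ, ← Finset.card_univ]
  apply Finset.card_le_mul_card_image_of_maps_to (f := fun z => z + σ z)
  · intro z _
    simp [invol hσ hQ, add_comm]
  · intro b _
    by_cases h : ∃ z0, z0 + σ z0 = b
    · obtain ⟨z0, h0⟩ := h
      apply Finset.card_le_card_of_injOn (fun z => z - z0)
      · intro z hz
        have hz' := (Finset.mem_filter.1 hz).2
        simp only [Finset.coe_filter, Finset.mem_univ, true_and, Set.mem_ofPred_eq]
        rw [map_sub]
        linear_combination hz' - h0
      · intro x _ y _ hxy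
        exact sub_left_injective hxy
    · rw [Finset.card_eq_zero.2]
      · exact Nat.zero_le _
      · apply Finset.filter_eq_empty_iff.2
        intro z _ hz
        exact h ⟨z, hz⟩

theorem card_fix (hσ : ∀ x, σ x = x ^ Q) (hQ : Fintype.card L = Q * Q) :
    (univ.filter fun x : L => σ x = x).card = Q := by
  have h1 := one_lt_Q hQ
  have h2 := card_fix_le hσ h1
  have h3 := card_anti_le hσ h1
  have h4 := card_mul hσ hQ
  by_contra h5
  have h6 : (univ.filter fun x : L => σ x = x).card + 1 ≤ Q := by omega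
  nlinarith

theorem card_anti (hσ : ∀ x, σ x = x ^ Q) (hQ : Fintype.card L = Q * Q) :
    (univ.filter fun x : L => σ x = -x).card = Q := by
  have h1 := one_lt_Q hQ
  have h2 := card_fix_le hσ h1
  have h3 := card_anti_le hσ h1
  have h4 := card_mul hσ hQ
  by_contra h5
  have h6 : (univ.filter fun x : L => σ x = -x).card + 1 ≤ Q := by omega
  nlinarith

theorem exists_sub (hσ : ∀ x, σ x = x ^ Q) (hQ : Fintype.card L = Q * Q) {c : L}
    (hc : c + σ c = 0) : ∃ z, c = z - σ z := by
  have h1 : univ.image (fun z => z - σ z) ⊆ univ.filter fun x : L => σ x = -x := by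
    intro x hx
    obtain ⟨z, -, rfl⟩ := Finset.mem_image.1 hx
    simp [invol hσ hQ]
  have h2 : Q * Q ≤ (univ.filter fun x : L => σ x = x).card *
      (univ.image (fun z => z - σ z)).card := by
    rw [← hQ, ← Finset.card_univ]
    apply Finset.card_le_mul_card_image
    intro b _
    by_cases h : ∃ z0, z0 - σ z0 = b
    · obtain ⟨z0, h0⟩ := h
      apply Finset.card_le_card_of_injOn (fun z => z - z0)
      · intro z hz
        have hz' := (Finset.mem_filter.1 hz).2
        simp only [Finset.coe_filter, Finset.mem_univ, true_and, Set.mem_ofPred_eq]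
        rw [map_sub]
        linear_combination h0 - hz'
      · intro x _ y _ hxy
        exact sub_left_injective hxy
    · rw [Finset.card_eq_zero.2]
      · exact Nat.zero_le _
      · apply Finset.filter_eq_empty_iff.2
        intro z _ hz
        exact h ⟨z, hz⟩
  have h0 := one_lt_Q hQ
  have h3 : univ.image (fun z => z - σ z) = univ.filter fun x : L => σ x = -x := by
    apply Finset.eq_of_subset_of_card_le h1
    rw [card_anti hσ hQ]
    rw [card_fix hσ hQ] at h2
    exact Nat.le_of_mul_le_mul_left h2 (by omega)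
  have h4 : c ∈ univ.filter fun x : L => σ x = -x := by
    simp only [Finset.mem_filter, Finset.mem_univ, true_and]
    linear_combination hc
  rw [← h3] at h4
  obtain ⟨z, -, hz⟩ := Finset.mem_image.1 h4
  exact ⟨z, hz.symm⟩

variable {φ : AddChar L ℂ}

theorem phi_anti (hσ : ∀ x, σ x = x ^ Q) (hQ : Fintype.card L = Q * Q)
    (hφσ : ∀ z, φ (σ z) = φ z) {c : L} (hc : c + σ c = 0) : φ c = 1 := by
  obtain ⟨z, rfl⟩ := exists_sub hσ hQ hc
  have h1 : φ (z - σ z) * φ (σ z) = φ z := by
    rw [← AddChar.map_add_eq_mul, sub_add_cancel]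
  rw [hφσ] at h1
  have h2 : φ z ≠ 0 := by
    intro h
    have h3 : φ z * φ (-z) = 1 := by
      rw [← AddChar.map_add_eq_mul, add_neg_cancel, AddChar.map_zero_eq_one]
    rw [h, zero_mul] at h3
    exact zero_ne_one h3
  exact mul_right_cancel₀ h2 (h1.trans (one_mul _).symm)

theorem sum_fix (hσ : ∀ x, σ x = x ^ Q) (hQ : Fintype.card L = Q * Q) (hφ : φ ≠ 1)
    (hφσ : ∀ z, φ (σ z) = φ z) {c : L} (hc : c + σ c ≠ 0) :
    ∑ y ∈ univ.filter (fun x : L => σ x = x), φ (c * y) = 0 := by
  obtain ⟨y0, hy0, hy1⟩ : ∃ y0, σ y0 = y0 ∧ φ (c * y0) ≠ 1 := by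
    by_contra h
    push Not at h
    apply hφ
    ext x
    have hy : σ ((x + σ x) / (c + σ c)) = (x + σ x) / (c + σ c) := by
      rw [map_div₀, map_add, map_add, invol hσ hQ, invol hσ hQ, add_comm (σ x), add_comm (σ c)]
    have hk : (x - c * ((x + σ x) / (c + σ c))) + σ (x - c * ((x + σ x) / (c + σ c))) = 0 := by
      rw [map_sub, map_mul, hy]
      field_simp
      ring
    have h1 := h _ hy
    have h2 := phi_anti hσ hQ hφσ hk
    have h3 : φ x = φ (c * ((x + σ x) / (c + σ c))) * φ (x - c * ((x + σ x) / (c + σ c))) := by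
      rw [← AddChar.map_add_eq_mul]
      congr 1
      ring
    rw [h3, h1, h2, AddChar.one_apply, mul_one]
  have h1 : φ (c * y0) * ∑ y ∈ univ.filter (fun x : L => σ x = x), φ (c * y) =
      ∑ y ∈ univ.filter (fun x : L => σ x = x), φ (c * y) := by
    rw [Finset.mul_sum]
    apply Finset.sum_nbij' (fun y => y0 + y) (fun y => y - y0)
    · intro y hy
      have := (Finset.mem_filter.1 hy).2
      simp [hy0, this]
    · intro y hy
      have := (Finset.mem_filter.1 hy).2
      simp [hy0, this]
    · intro y _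
      ring
    · intro y _
      ring
    · intro y _
      rw [← AddChar.map_add_eq_mul]
      congr 1
      ring
  have h2 : (φ (c * y0) - 1) * ∑ y ∈ univ.filter (fun x : L => σ x = x), φ (c * y) = 0 := by
    rw [sub_mul, h1, one_mul, sub_self]
  exact (mul_eq_zero.1 h2).resolve_left (sub_ne_zero.2 hy1)

theorem sum_norm (hσ : ∀ x, σ x = x ^ Q) (hQ : Fintype.card L = Q * Q) (hφ : φ ≠ 1)
    (hφσ : ∀ z, φ (σ z) = φ z) {c : L} (hc : c + σ c ≠ 0) :
    ∑ z : L, φ (c * (z * σ z)) = -(Q : ℂ) := by
  have hQ1 := one_lt_Q hQ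
  have hmaps : ∀ z ∈ (univ : Finset L), z * σ z ∈ univ.filter (fun x : L => σ x = x) := by
    intro z _
    simp [invol hσ hQ, mul_comm]
  have hg0 : (univ.filter fun z : L => z * σ z = 0).card = 1 := by
    rw [Finset.card_eq_one]
    refine ⟨0, ?_⟩
    ext z
    simp
  have hgle : ∀ y : L, (univ.filter fun z : L => z * σ z = y).card ≤ Q + 1 := by
    intro y
    calc _ ≤ (Polynomial.nthRoots (Q + 1) y).toFinset.card := by
          apply Finset.card_le_card
          intro x hx
          rw [Multiset.mem_toFinset, Polynomial.mem_nthRoots (Nat.succ_pos Q)]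
          have hx' := (Finset.mem_filter.1 hx).2
          rw [hσ] at hx'
          rw [pow_succ, mul_comm, hx']
      _ ≤ _ := (Multiset.toFinset_card_le _).trans (Polynomial.card_nthRoots _ _)
  have h0mem : (0 : L) ∈ univ.filter (fun x : L => σ x = x) := by simp
  have htot : ∑ y ∈ univ.filter (fun x : L => σ x = x),
      (univ.filter fun z : L => z * σ z = y).card = Q * Q := by
    rw [← hQ, ← Finset.card_univ]
    exact (Finset.card_eq_sum_card_fiberwise hmaps).symm
  have hg : ∀ y ∈ (univ.filter (fun x : L => σ x = x)).erase 0,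
      (univ.filter fun z : L => z * σ z = y).card = Q + 1 := by
    rw [← Finset.sum_eq_sum_iff_of_le (fun y _ => hgle y)]
    have h1 := Finset.sum_erase_add _ (fun y => (univ.filter fun z : L => z * σ z = y).card) h0mem
    rw [htot, hg0] at h1
    rw [Finset.sum_const, Finset.card_erase_of_mem h0mem, card_fix hσ hQ, smul_eq_mul]
    obtain ⟨k, rfl⟩ : ∃ k, Q = k + 1 := ⟨Q - 1, by omega⟩
    rw [Nat.add_sub_cancel]
    have h2 : (k + 1) * (k + 1) = k * (k + 1 + 1) + 1 := by ring
    omega
  have hfib : ∑ z : L, φ (c * (z * σ z)) = ∑ y ∈ univ.filter (fun x : L => σ x = x),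
      ((univ.filter fun z : L => z * σ z = y).card : ℂ) * φ (c * y) := by
    rw [← Finset.sum_fiberwise_of_maps_to hmaps]
    refine Finset.sum_congr rfl fun y _ => ?_
    rw [← nsmul_eq_mul, ← Finset.sum_const]
    refine Finset.sum_congr rfl fun z hz => ?_
    rw [(Finset.mem_filter.1 hz).2]
  rw [hfib, ← Finset.sum_erase_add _ _ h0mem, hg0]
  have h1 : ∑ y ∈ (univ.filter (fun x : L => σ x = x)).erase 0,
      ((univ.filter fun z : L => z * σ z = y).card : ℂ) * φ (c * y) =
      ((Q : ℂ) + 1) * ∑ y ∈ (univ.filter (fun x : L => σ x = x)).erase 0, φ (c * y) := by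
    rw [Finset.mul_sum]
    refine Finset.sum_congr rfl fun y hy => ?_
    rw [hg y hy]
    push_cast
    ring
  have h2 := Finset.sum_erase_add _ (fun y => φ (c * y)) h0mem
  rw [sum_fix hσ hQ hφ hφσ hc] at h2
  rw [mul_zero, AddChar.map_zero_eq_one] at h2
  rw [h1, mul_zero, AddChar.map_zero_eq_one]
  push_cast
  linear_combination ((Q : ℂ) + 1) * h2

end basic

section form
variable {L : Type*} [Field L] [Fintype L] [DecidableEq L] {σ : L →+* L} {Q : ℕ}
variable {V : Type*} [AddCommGroup V] [Module L V] [Fintype V] [DecidableEq V]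

structure Sesq (σ : L →+* L) (m : V → V → L) : Prop where
  add_left : ∀ u v w, m (u + v) w = m u w + m v w
  smul_left : ∀ (z : L) v w, m (z • v) w = z * m v w
  add_right : ∀ u v w, m u (v + w) = m u v + m u w
  smul_right : ∀ (z : L) v w, m v (z • w) = σ z * m v w

def hh (σ : L →+* L) (m : V → V → L) (v w : V) : L := m v w + σ (m w v)

variable {m : V → V → L}

theorem hh_symm (hs : ∀ x, σ (σ x) = x) (v w : V) : hh σ m w v = σ (hh σ m v w) := by
  unfold hh
  rw [map_add, hs, add_comm]

theorem Sesq.hadd_left (h : Sesq σ m) (u v w : V) : hh σ m (u + v) w = hh σ m u w + hh σ m v w := by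
  unfold hh
  rw [h.add_left, h.add_right, map_add]
  ring

theorem Sesq.hsmul_left (h : Sesq σ m) (hs : ∀ x, σ (σ x) = x) (z : L) (v w : V) :
    hh σ m (z • v) w = z * hh σ m v w := by
  unfold hh
  rw [h.smul_left, h.smul_right, map_mul, hs]
  ring

theorem Sesq.hadd_right (h : Sesq σ m) (u v w : V) : hh σ m u (v + w) = hh σ m u v + hh σ m u w := by
  unfold hh
  rw [h.add_left, h.add_right, map_add]
  ring

theorem Sesq.hsmul_right (h : Sesq σ m) (z : L) (v w : V) :
    hh σ m v (z • w) = σ z * hh σ m v w := by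
  unfold hh
  rw [h.smul_left, h.smul_right, map_mul]
  ring

/-- the orthogonal complement of `v0` in `W` -/
def orth (h : Sesq σ m) (hs : ∀ x, σ (σ x) = x) (W : Submodule L V) (v0 : V) : Submodule L V where
  carrier := {w | w ∈ W ∧ hh σ m w v0 = 0}
  zero_mem' := by
    refine ⟨W.zero_mem, ?_⟩
    have := h.hsmul_left hs 0 0 v0
    rwa [zero_smul, zero_mul] at this
  add_mem' := by
    intro a b ha hb
    refine ⟨W.add_mem ha.1 hb.1, ?_⟩
    rw [h.hadd_left, ha.2, hb.2, add_zero]
  smul_mem' := by
    intro z a ha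
    refine ⟨W.smul_mem z ha.1, ?_⟩
    rw [h.hsmul_left hs, ha.2, mul_zero]

theorem mem_orth (h : Sesq σ m) (hs : ∀ x, σ (σ x) = x) (W : Submodule L V) (v0 w : V) :
    w ∈ orth h hs W v0 ↔ w ∈ W ∧ hh σ m w v0 = 0 := Iff.rfl

open scoped Classical in
theorem split_sum (h : Sesq σ m) (hs : ∀ x, σ (σ x) = x) (W : Submodule L V) {v0 : V}
    (hv0 : v0 ∈ W) (h0 : hh σ m v0 v0 ≠ 0) (g : V → ℂ) :
    ∑ v ∈ univ.filter (fun v => v ∈ W), g v =
      ∑ z : L, ∑ w ∈ univ.filter (fun w => w ∈ orth h hs W v0), g (z • v0 + w) := by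
  rw [← Finset.sum_product']
  symm
  apply Finset.sum_nbij' (fun p => p.1 • v0 + p.2)
    (fun w => (hh σ m w v0 / hh σ m v0 v0, w - (hh σ m w v0 / hh σ m v0 v0) • v0))
  · intro p hp
    have hp' := (Finset.mem_filter.1 (Finset.mem_product.1 hp).2).2
    simp only [Finset.mem_filter, Finset.mem_univ, true_and]
    exact W.add_mem (W.smul_mem _ hv0) hp'.1
  · intro w hw
    have hw' := (Finset.mem_filter.1 hw).2
    simp only [Finset.mem_product, Finset.mem_filter, Finset.mem_univ, true_and]
    refine ⟨W.sub_mem hw' (W.smul_mem _ hv0), ?_⟩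
    rw [sub_eq_add_neg, ← neg_smul, h.hadd_left, h.hsmul_left hs]
    field_simp
    ring
  · intro p hp
    have hp' := (Finset.mem_filter.1 (Finset.mem_product.1 hp).2).2
    have h1 : hh σ m (p.1 • v0 + p.2) v0 / hh σ m v0 v0 = p.1 := by
      rw [h.hadd_left, h.hsmul_left hs, hp'.2, add_zero]
      field_simp
    ext1
    · exact h1
    · show p.1 • v0 + p.2 - (hh σ m (p.1 • v0 + p.2) v0 / hh σ m v0 v0) • v0 = p.2
      rw [h1, add_sub_cancel_left]
  · intro w _
    show (hh σ m w v0 / hh σ m v0 v0) • v0 + (w - (hh σ m w v0 / hh σ m v0 v0) • v0) = w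
    rw [add_sub_cancel]
  · intro p _
    rfl

open scoped Classical in
theorem gauss_ind (hσ : ∀ x, σ x = x ^ Q) (hQ : Fintype.card L = Q * Q) {φ : AddChar L ℂ}
    (hφ : φ ≠ 1) (hφσ : ∀ z, φ (σ z) = φ z) (h : Sesq σ m) : ∀ (r : ℕ) (W : Submodule L V),
    (univ.filter (fun v => v ∈ W)).card = (Fintype.card L) ^ r *
      (univ.filter (fun w => w ∈ W ∧ ∀ v ∈ W, hh σ m w v = 0)).card →
    ∑ v ∈ univ.filter (fun v => v ∈ W), φ (m v v) =
      ((univ.filter (fun v => v ∈ W)).card : ℂ) * (-1 / (Q : ℂ)) ^ r := by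
  have hs := invol hσ hQ
  have hQ1 := one_lt_Q hQ
  have hQ0 : (Q : ℂ) ≠ 0 := by
    have : Q ≠ 0 := by omega
    exact_mod_cast this
  intro r
  induction r with
  | zero =>
    intro W hW
    rw [pow_zero, one_mul] at hW
    have hsub : univ.filter (fun w => w ∈ W ∧ ∀ v ∈ W, hh σ m w v = 0) ⊆
        univ.filter (fun v => v ∈ W) := by
      intro w hw
      have hw' := (Finset.mem_filter.1 hw).2
      simp [hw'.1]
    have heq := Finset.eq_of_subset_of_card_le hsub hW.le
    have h1 : ∀ v ∈ univ.filter (fun v => v ∈ W), φ (m v v) = 1 := by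
      intro v hv
      have hv1 := (Finset.mem_filter.1 hv).2
      rw [← heq] at hv
      exact phi_anti hσ hQ hφσ ((Finset.mem_filter.1 hv).2.2 v hv1)
    rw [Finset.sum_congr rfl h1, Finset.sum_const, pow_zero, mul_one, nsmul_eq_mul, mul_one]
  | succ r ih =>
    intro W hW
    obtain ⟨v0, hv0, h0⟩ : ∃ v0 ∈ W, hh σ m v0 v0 ≠ 0 := by
      by_contra hno
      push Not at hno
      have hz : ∀ w ∈ W, ∀ v ∈ W, hh σ m w v = 0 := by
        intro w hw v hv
        by_contra hne
        have h1 : ∀ z : L, z * hh σ m w v + σ (z * hh σ m w v) = 0 := by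
          intro z
          have h2 := hno (z • w + v) (W.add_mem (W.smul_mem z hw) hv)
          rw [h.hadd_left, h.hadd_right, h.hadd_right, hno (z • w) (W.smul_mem z hw), hno v hv,
            hh_symm hs (z • w) v, h.hsmul_left hs] at h2
          rw [zero_add, add_zero] at h2
          exact h2
        have h3 : ∀ x : L, σ x = -x := by
          intro x
          have h4 := h1 (x / hh σ m w v)
          rw [div_mul_cancel₀ _ hne] at h4
          linear_combination h4
        have h5 := card_anti hσ hQ
        rw [Finset.filter_true_of_mem (fun x _ => h3 x), Finset.card_univ, hQ] at h5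
        nlinarith
      have heq : univ.filter (fun w => w ∈ W ∧ ∀ v ∈ W, hh σ m w v = 0) =
          univ.filter (fun v => v ∈ W) := by
        ext w
        simp only [Finset.mem_filter, Finset.mem_univ, true_and]
        exact ⟨fun h => h.1, fun hw => ⟨hw, hz w hw⟩⟩
      rw [heq] at hW
      have hpos : 0 < (univ.filter (fun v => v ∈ W)).card :=
        Finset.card_pos.2 ⟨0, by simp⟩
      have h6 : 1 < Fintype.card L ^ (r + 1) := Nat.one_lt_pow (by omega) Fintype.one_lt_card
      nlinarith
    have hcard : (univ.filter (fun v => v ∈ W)).card = Fintype.card L *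
        (univ.filter (fun w => w ∈ orth h hs W v0)).card := by
      have h1 := split_sum h hs W hv0 h0 (fun _ => 1)
      simp only [Finset.sum_const, nsmul_eq_mul, mul_one, Finset.card_univ] at h1
      exact_mod_cast h1
    have hrad : univ.filter (fun w => w ∈ orth h hs W v0 ∧ ∀ v ∈ orth h hs W v0, hh σ m w v = 0) =
        univ.filter (fun w => w ∈ W ∧ ∀ v ∈ W, hh σ m w v = 0) := by
      ext w
      simp only [Finset.mem_filter, Finset.mem_univ, true_and]
      constructor
      · rintro ⟨hw, hw2⟩
        refine ⟨hw.1, fun v hv => ?_⟩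
        have h1 : v - (hh σ m v v0 / hh σ m v0 v0) • v0 ∈ orth h hs W v0 := by
          refine ⟨W.sub_mem hv (W.smul_mem _ hv0), ?_⟩
          rw [sub_eq_add_neg, ← neg_smul, h.hadd_left, h.hsmul_left hs]
          field_simp
          ring
        have h2 : v = (hh σ m v v0 / hh σ m v0 v0) • v0 +
            (v - (hh σ m v v0 / hh σ m v0 v0) • v0) := by
          rw [add_sub_cancel]
        rw [h2, h.hadd_right, h.hsmul_right, hw.2, hw2 _ h1, mul_zero, add_zero]
      · rintro ⟨hw, hw2⟩
        exact ⟨⟨hw, hw2 v0 hv0⟩, fun v hv => hw2 v hv.1⟩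
    have hih := ih (orth h hs W v0) (by
      rw [hrad]
      rw [hcard, pow_succ, mul_assoc, mul_comm (Fintype.card L ^ r), mul_assoc] at hW
      have h1 := Nat.eq_of_mul_eq_mul_left Fintype.card_pos hW
      rw [h1, mul_comm])
    rw [split_sum h hs W hv0 h0]
    have h1 : ∀ z : L, ∑ w ∈ univ.filter (fun w => w ∈ orth h hs W v0),
        φ (m (z • v0 + w) (z • v0 + w)) = φ (m v0 v0 * (z * σ z)) *
        ∑ w ∈ univ.filter (fun w => w ∈ orth h hs W v0), φ (m w w) := by
      intro z
      rw [Finset.mul_sum]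
      refine Finset.sum_congr rfl fun w hw => ?_
      have hw' := (Finset.mem_filter.1 hw).2
      have h2 : m (z • v0 + w) (z • v0 + w) = m v0 v0 * (z * σ z) + m w w +
          (z * m v0 w + m w (z • v0)) := by
        rw [h.add_left, h.add_right, h.add_right, h.smul_left, h.smul_left, h.smul_right]
        ring
      have h3 : φ (z * m v0 w + m w (z • v0)) = 1 := by
        rw [AddChar.map_add_eq_mul, ← hφσ (m w (z • v0)), ← AddChar.map_add_eq_mul]
        have h4 : z * m v0 w + σ (m w (z • v0)) = hh σ m (z • v0) w := by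
          unfold hh
          rw [h.smul_left]
        rw [h4, h.hsmul_left hs, hh_symm hs w v0, hw'.2, map_zero, mul_zero,
          AddChar.map_zero_eq_one]
      rw [h2, AddChar.map_add_eq_mul, AddChar.map_add_eq_mul, h3, mul_one]
    rw [Finset.sum_congr rfl (fun z _ => h1 z), ← Finset.sum_mul,
      sum_norm hσ hQ hφ hφσ (c := m v0 v0) h0, hih, hcard, pow_succ]
    have h5 : (Fintype.card L : ℂ) = Q * Q := by
      rw [hQ]
      push_cast
      ring
    push_cast
    rw [h5]
    field_simp

end form

theorem stGauss : StGauss := by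
  classical
  intro F L _ _ _ _ _ n hcard φ hφ hφQ i M
  obtain ⟨Q, hQdef⟩ : ∃ Q, Q = Fintype.card F ^ n := ⟨_, rfl⟩
  have hQ : Fintype.card L = Q * Q := by
    rw [hcard, hQdef]
    ring
  -- the Frobenius power
  obtain ⟨p, hp⟩ := CharP.exists F
  have := hp
  obtain ⟨f, hpp, hf⟩ := FiniteField.card F p
  have : Fact p.Prime := ⟨hpp⟩
  have : CharP L p := charP_of_injective_algebraMap (algebraMap F L).injective p
  obtain ⟨σ, hσ⟩ : ∃ σ : L →+* L, ∀ x, σ x = x ^ Q := by
    refine ⟨iterateFrobenius L p (f * n), fun x => ?_⟩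
    rw [iterateFrobenius_def, hQdef, hf, ← pow_mul]
  have hs := invol hσ hQ
  have hφσ : ∀ z, φ (σ z) = φ z := by
    intro z
    rw [hσ, hQdef]
    exact hφQ z
  have hS : Sesq σ (fun v w : Fin i → L => ∑ a, ∑ b, M a b * v a * σ (w b)) := by
    refine ⟨?_, ?_, ?_, ?_⟩
    · intro u v w
      simp only [Pi.add_apply, ← Finset.sum_add_distrib]
      refine Finset.sum_congr rfl fun a _ => Finset.sum_congr rfl fun b _ => ?_
      ring
    · intro z v w
      simp only [Pi.smul_apply, smul_eq_mul, Finset.mul_sum]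
      refine Finset.sum_congr rfl fun a _ => Finset.sum_congr rfl fun b _ => ?_
      ring
    · intro u v w
      simp only [Pi.add_apply, ← Finset.sum_add_distrib]
      refine Finset.sum_congr rfl fun a _ => Finset.sum_congr rfl fun b _ => ?_
      rw [map_add]
      ring
    · intro z v w
      simp only [Pi.smul_apply, smul_eq_mul, Finset.mul_sum]
      refine Finset.sum_congr rfl fun a _ => Finset.sum_congr rfl fun b _ => ?_
      rw [map_mul]
      ring
  obtain ⟨H, hH⟩ : ∃ H : Matrix (Fin i) (Fin i) L, H = M + Matrix.of (fun a b => (M b a) ^ Q) :=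
    ⟨_, rfl⟩
  have hhH : ∀ v w : Fin i → L, hh σ (fun v w : Fin i → L => ∑ a, ∑ b, M a b * v a * σ (w b)) v w =
      ∑ b, (∑ a, v a * H a b) * σ (w b) := by
    intro v w
    unfold hh
    simp only [map_sum, map_mul, hs]
    rw [Finset.sum_comm (f := fun a b => M a b * v a * σ (w b)), ← Finset.sum_add_distrib]
    refine Finset.sum_congr rfl fun b _ => ?_
    rw [← Finset.sum_add_distrib, Finset.sum_mul]
    refine Finset.sum_congr rfl fun a _ => ?_
    rw [hH, Matrix.add_apply, Matrix.of_apply, hσ (M b a)]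
    ring
  have hrad : (univ.filter (fun w : Fin i → L => w ∈ (⊤ : Submodule L (Fin i → L)) ∧
      ∀ v ∈ (⊤ : Submodule L (Fin i → L)),
      hh σ (fun v w : Fin i → L => ∑ a, ∑ b, M a b * v a * σ (w b)) w v = 0)) =
      univ.filter (fun w : Fin i → L => w ∈ LinearMap.ker (Matrix.mulVecLin H.transpose)) := by
    ext w
    simp only [Finset.mem_filter, Finset.mem_univ, true_and, Submodule.mem_top, forall_true_left,
      LinearMap.mem_ker, Matrix.mulVecLin_apply]
    constructor
    · intro hw
      funext b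
      have h1 := hw (Pi.single b 1)
      rw [hhH, Finset.sum_eq_single b] at h1
      · rw [Pi.single_eq_same, map_one, mul_one] at h1
        rw [Matrix.mulVec_transpose]
        simpa [Matrix.vecMul, dotProduct] using h1
      · intro c _ hc
        rw [Pi.single_eq_of_ne hc, map_zero, mul_zero]
      · intro hb
        exact absurd (Finset.mem_univ b) hb
    · intro hw v
      rw [hhH]
      refine Finset.sum_eq_zero fun b _ => ?_
      have h1 := congrFun hw b
      rw [Matrix.mulVec_transpose] at h1
      have h2 : ∑ a, w a * H a b = 0 := by simpa [Matrix.vecMul, dotProduct] using h1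
      rw [h2, zero_mul]
  have hker : (univ.filter (fun w : Fin i → L =>
      w ∈ LinearMap.ker (Matrix.mulVecLin H.transpose))).card =
      Fintype.card L ^ (Module.finrank L (LinearMap.ker (Matrix.mulVecLin H.transpose))) := by
    rw [← Module.card_eq_pow_finrank (K := L), Fintype.card_subtype]
  have hrk : Module.finrank L (LinearMap.ker (Matrix.mulVecLin H.transpose)) + H.rank = i := by
    have h1 := LinearMap.finrank_range_add_finrank_ker (Matrix.mulVecLin H.transpose)
    have h2 : Module.finrank L (LinearMap.range (Matrix.mulVecLin H.transpose)) = H.rank := by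
      rw [← Matrix.rank_transpose H]
      rfl
    rw [h2, Module.finrank_fin_fun] at h1
    omega
  have htop : (univ.filter (fun v : Fin i → L => v ∈ (⊤ : Submodule L (Fin i → L)))) = univ := by
    ext v
    simp
  have hmain := gauss_ind hσ hQ hφ hφσ hS H.rank ⊤ (by
    rw [hrad, hker, htop, Finset.card_univ, ← pow_add, add_comm H.rank, hrk]
    simp)
  rw [htop] at hmain
  have h1 : (∑ v : Fin i → L, φ (∑ a, ∑ b, M a b * v a * (v b) ^ (Fintype.card F ^ n))) =
      ∑ v : Fin i → L, φ (∑ a, ∑ b, M a b * v a * σ (v b)) := by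
    refine Finset.sum_congr rfl fun v _ => ?_
    simp only [hσ, hQdef]
  rw [h1, hmain, Finset.card_univ, ← hQdef, ← hH, hQdef]
  congr 1
  · rw [Fintype.card_fun, hcard]
    push_cast
    rw [Fintype.card_fin]
  · push_cast
    rfl

end Pool.Agent.T9h84.Sing
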